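import Pool.Agent.T6.H1.OV.A
import Pool.Agent.T6.H1.OV.C
import Pool.Agent.T6.H1.OV.C1
import Pool.Agent.T6.H1.OV.E
import Pool.Agent.T6.H1.OV.F
import Pool.Agent.T6.H1.OV.G
import Pool.Agent.T6.H1.OV.L
import Pool.Agent.T6.H1.OV.P
import Pool.Agent.T6.H1.OV.R
import Pool.Agent.T6.H1.OV.S1
import Pool.Agent.T6.H1.OV.S2
import Pool.Agent.T6.H1.OV.V

/-!
# Order of vanishing at 1 of polynomials with coefficients -1, 0, 1: a new lower bound

`M(n) ≥ c √(n log log n / log n)` for every `n ≥ 3`. The known lower bound is `c √(n / log n)`,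
obtained by counting the values at `1` of the derivatives of the polynomials with coefficients `0`
and `1`.

Idea of the proof. Count instead the residues of the polynomials with coefficients `0` and `1` modulo
`D = ∏_{d ≤ K} Φ_d ^ m_d`, which are far fewer than the separate conditions at the roots of `D`
suggest: up to harmless factors their number is at most the product of the sizes of the conditions
divided by the square root of the product of `|ζ - ξ|` over the pairs of different roots. For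
`m_d = ⌊κ / d⌋ #{j < J : all the prime factors of d are > 2 ^ (2 ^ j)}` with `J ~ log log n`,
`m_1 = κ J`, the logarithm of this quotient is `O(κ² J log n)` instead of the `κ² J² log n` of the
condition at `1` alone.
-/

set_option autoImplicit false

open Polynomial

namespace Pool.Agent.Results.MP_178164_nt.LogLogFactor

/-- `M n` is the largest `k` such that `(x - 1) ^ k` divides some nonzero polynomial of degree at most
`n` all of whose coefficients are `-1`, `0` or `1`. -/
noncomputable def M (n : ℕ) : ℕ :=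
  sSup {k : ℕ | ∃ p : ℤ[X], p ≠ 0 ∧ p.natDegree ≤ n ∧
    (∀ i, p.coeff i = -1 ∨ p.coeff i = 0 ∨ p.coeff i = 1) ∧ (X - 1) ^ k ∣ p}

/-- the set in the definition of `M n` is bounded by `n` -/
theorem bdd (n : ℕ) : BddAbove {k : ℕ | ∃ p : ℤ[X], p ≠ 0 ∧ p.natDegree ≤ n ∧
    (∀ i, p.coeff i = -1 ∨ p.coeff i = 0 ∨ p.coeff i = 1) ∧ (X - 1) ^ k ∣ p} := by
  refine ⟨n, ?_⟩
  rintro k ⟨p, hp0, hpn, -, hpd⟩
  have h1 := natDegree_le_of_dvd hpd hp0
  have h2 : ((X - 1 : ℤ[X]) ^ k).natDegree = k := by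
    rw [show (X - 1 : ℤ[X]) = X - C 1 by simp, natDegree_pow, natDegree_X_sub_C, mul_one]
  omega

/-- There is `c > 0` with `M(n) ≥ c √(n log log n / log n)` for every `n ≥ 3`. -/
theorem result : ∃ c : ℝ, 0 < c ∧ ∀ n : ℕ, 3 ≤ n →
    c * Real.sqrt (n * Real.log (Real.log n) / Real.log n) ≤ M n := by
  have hV := T6.H1.OV.v
  have hC1 := T6.H1.OV.c1
  have hC := T6.H1.OV.c hV hC1
  have hL := T6.H1.OV.l
  have hE := T6.H1.OV.e T6.H1.OV.p
  have hA := T6.H1.OV.a
  have hR := T6.H1.OV.r
  obtain ⟨c, hc, h⟩ := T6.H1.OV.f (T6.H1.OV.g hC hL hE hA (T6.H1.OV.s1 hR) (T6.H1.OV.s2 hR hA))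
  refine ⟨c, hc, fun n hn => ?_⟩
  obtain ⟨k, p, hp0, hpn, hp1, hpd, hk⟩ := h n hn
  refine hk.trans ?_
  have hmem : k ≤ M n := by
    refine le_csSup (bdd n) ⟨p, hp0, hpn, fun i => ?_, hpd⟩
    have := abs_le.1 (hp1 i)
    omega
  exact_mod_cast hmem

end Pool.Agent.Results.MP_178164_nt.LogLogFactor
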